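import Pool.Agent.Helper86.TH.Stmts

/-! Row DEG of the project TH. -/

namespace Helper73.TH

open _root_.TH MvPolynomial Finset

noncomputable section

variable {K : Type*} [Field K] [CharZero K]

theorem whmul {m n : ℕ} {F G : Sy K} (hF : WH m F) (hG : WH n G) : WH (m + n) (F * G) :=
  IsWeightedHomogeneous.mul hF hG

theorem whcast {m n : ℕ} {F : Sy K} (hF : WH m F) (h : m = n) : WH n F := h ▸ hF

theorem whzero (n : ℕ) : WH n (0 : Sy K) := isWeightedHomogeneous_zero _ _ _

theorem whsmul {n : ℕ} {F : Sy K} (hF : WH n F) (c : K) : WH n (c • F) :=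
  (weightedHomogeneousSubmodule K (fun j : ℕ => j + 1) n).smul_mem c hF

theorem whsum {ι : Type*} (s : Finset ι) {f : ι → Sy K} {n : ℕ} (h : ∀ i ∈ s, WH n (f i)) :
    WH n (∑ i ∈ s, f i) := IsWeightedHomogeneous.sum s f n h

theorem wh_eh (a : ℕ) : WH a (eh K a) := by
  unfold eh
  induction a using Nat.strong_induction_on with
  | _ a ih =>
    cases a with
    | zero => rw [hc_zero]; exact isWeightedHomogeneous_one _ _
    | succ a =>
      rw [hc_succ']
      refine (weightedHomogeneousSubmodule K (fun j : ℕ => j + 1) (a + 1)).smul_of_tower_mem _ ?_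
      refine whsum _ fun i hi => ?_
      rw [mem_range] at hi
      have h1 : WH (i + 1) (-(X i : Sy K)) := IsWeightedHomogeneous.neg (isWeightedHomogeneous_X _ _ i)
      exact whcast (whmul h1 (ih (a - i) (by omega))) (by omega)

/-- the degree property of the operators `tau` -/
def Good (q t : K) (n : ℕ) (F : Sy K) : Prop :=
  ∀ i, (i ≤ n → WH (n - i) (tau q t i F)) ∧ (n < i → tau q t i F = 0)

theorem Good.mul {q t : K} {m n : ℕ} {F G : Sy K} (hF : Good q t m F) (hG : Good q t n G) :
    Good q t (m + n) (F * G) := by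
  intro i
  rw [tau_mul]
  refine ⟨fun hi => whsum _ fun p hp => ?_, fun hi => Finset.sum_eq_zero fun p hp => ?_⟩
  · rw [HasAntidiagonal.mem_antidiagonal] at hp
    by_cases h1 : p.1 ≤ m
    · by_cases h2 : p.2 ≤ n
      · exact whcast (whmul ((hF p.1).1 h1) ((hG p.2).1 h2)) (by omega)
      · rw [(hG p.2).2 (by omega), mul_zero]
        exact whzero _
    · rw [(hF p.1).2 (by omega), zero_mul]
      exact whzero _
  · rw [HasAntidiagonal.mem_antidiagonal] at hp
    by_cases h1 : p.1 ≤ m
    · rw [(hG p.2).2 (by omega), mul_zero]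
    · rw [(hF p.1).2 (by omega), zero_mul]

theorem Good.cast {q t : K} {m n : ℕ} {F : Sy K} (hF : Good q t m F) (h : m = n) :
    Good q t n F := h ▸ hF

theorem good_C (q t c : K) : Good q t 0 (C c : Sy K) := by
  intro i
  have h : tau q t i (C c : Sy K) = if i = 0 then C c else 0 := by
    rw [tau_apply]
    have h1 : tauA q t (C c : Sy K) = Polynomial.C (C c) := by
      rw [← MvPolynomial.algebraMap_eq, AlgHom.commutes]
      rfl
    rw [h1, Polynomial.coeff_C]
  rw [h]
  refine ⟨fun hi => ?_, fun hi => ?_⟩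
  · obtain rfl : i = 0 := by omega
    rw [if_pos rfl]
    exact isWeightedHomogeneous_C _ _
  · rw [if_neg (by omega)]

theorem good_X (q t : K) (j : ℕ) : Good q t (j + 1) (X j : Sy K) := by
  intro i
  rw [tau_apply, tauA_X, Polynomial.coeff_add, Polynomial.coeff_C, Polynomial.coeff_C_mul,
    Polynomial.coeff_X_pow]
  refine ⟨fun hi => ?_, fun hi => ?_⟩
  · by_cases h0 : i = 0
    · subst h0
      rw [if_pos rfl, if_neg (by omega), mul_zero, add_zero]
      exact isWeightedHomogeneous_X _ _ j
    · rw [if_neg h0, zero_add]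
      by_cases h1 : i = j + 1
      · subst h1
        rw [if_pos rfl, mul_one, Nat.sub_self]
        exact isWeightedHomogeneous_C _ _
      · rw [if_neg h1, mul_zero]
        exact whzero _
  · rw [if_neg (by omega), if_neg (by omega)]
    simp

theorem Good.pow {q t : K} {m : ℕ} {F : Sy K} (hF : Good q t m F) (k : ℕ) :
    Good q t (k * m) (F ^ k) := by
  induction k with
  | zero =>
    rw [pow_zero]
    have := good_C q t (1 : K)
    rw [C_1] at this
    exact this.cast (by simp)
  | succ k ih =>
    rw [pow_succ]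
    exact (ih.mul hF).cast (by ring)

theorem weight_single_add (j k : ℕ) (s : ℕ →₀ ℕ) :
    Finsupp.weight (fun j : ℕ => j + 1) (Finsupp.single j k + s) =
      k * (j + 1) + Finsupp.weight (fun j : ℕ => j + 1) s := by
  rw [map_add, Finsupp.weight_single, smul_eq_mul]

theorem good_monomial (q t : K) (s : ℕ →₀ ℕ) (c : K) :
    Good q t (Finsupp.weight (fun j : ℕ => j + 1) s) (monomial s c) := by
  induction s using Finsupp.induction with
  | zero =>
    have := good_C q t c
    exact this.cast (by simp)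
  | single_add j k s _ _ ih =>
    have h1 : (monomial (Finsupp.single j k + s) c : Sy K) = X j ^ k * monomial s c := by
      rw [X_pow_eq_monomial, monomial_mul, one_mul]
    rw [h1, weight_single_add]
    exact ((good_X q t j).pow k).mul ih

theorem good_of_wh (q t : K) {n : ℕ} {F : Sy K} (hF : WH n F) : Good q t n F := by
  induction hF using IsWeightedHomogeneous.induction_on with
  | zero =>
    intro i
    rw [map_zero]
    exact ⟨fun _ => whzero _, fun _ => rfl⟩
  | add p p' _ _ h1 h2 =>
    intro i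
    rw [map_add]
    refine ⟨fun hi => IsWeightedHomogeneous.add ((h1 i).1 hi) ((h2 i).1 hi), fun hi => ?_⟩
    rw [(h1 i).2 hi, (h2 i).2 hi, add_zero]
  | monomial s c h =>
    exact (good_monomial q t s c).cast h

theorem wh_ehz (a : ℤ) (ha : 0 ≤ a) : WH a.toNat (ehz K a) := by
  rw [ehz, if_pos ha]
  exact wh_eh _

theorem wh_Dk (q t : K) {n : ℕ} {F : Sy K} (hF : WH n F) (k : ℤ) (hk : 0 ≤ k + n) :
    WH (k + n).toNat (Dk q t k F) := by
  rw [Dk_apply q t k F _ (Nat.lt_succ_self _)]
  refine whsum _ fun i _ => ?_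
  by_cases hi : i ≤ n
  · by_cases h0 : 0 ≤ k + i
    · exact whcast (whmul (wh_ehz (K := K) (k + i) h0) ((good_of_wh q t hF i).1 hi)) (by omega)
    · rw [ehz_neg _ (by omega), zero_mul]
      exact whzero _
  · rw [(good_of_wh q t hF i).2 (by omega), mul_zero]
    exact whzero _

theorem Dk_zero_of_neg (q t : K) {n : ℕ} {F : Sy K} (hF : WH n F) (k : ℤ) (hk : k + n < 0) :
    Dk q t k F = 0 := by
  rw [Dk_apply q t k F _ (Nat.lt_succ_self _)]
  refine Finset.sum_eq_zero fun i _ => ?_
  by_cases hi : i ≤ n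
  · rw [ehz_neg _ (by omega), zero_mul]
  · rw [(good_of_wh q t hF i).2 (by omega), mul_zero]

theorem wh_Del (q t : K) {n : ℕ} {F : Sy K} (hF : WH n F) : WH n (Del q t F) := by
  rw [Del, LinearMap.smul_apply, LinearMap.sub_apply, Module.End.one_apply]
  refine whsmul (IsWeightedHomogeneous.sub hF ?_) _
  exact whcast (wh_Dk q t hF 0 (by omega)) (by omega)

theorem wh_Bn (q t : K) (b : ℕ) : ∀ {n : ℕ} {F : Sy K}, WH n F → WH (n + 1) (Bn q t b F) := by
  induction b with
  | zero =>
    intro n F hF
    rw [Bn, mu_apply]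
    exact whcast (whmul (isWeightedHomogeneous_X K (fun j : ℕ => j + 1) 0) hF) (by omega)
  | succ b ih =>
    intro n F hF
    rw [Bn, LinearMap.sub_apply, Module.End.mul_apply, Module.End.mul_apply]
    exact IsWeightedHomogeneous.sub (wh_Del q t (ih hF)) (ih (wh_Del q t hF))

theorem wh_pd {n : ℕ} {F : Sy K} (hF : WH n F) : WH (n - 1) (pd F) ∧ (n = 0 → pd F = 0) := by
  induction hF using IsWeightedHomogeneous.induction_on with
  | zero =>
    rw [map_zero]
    exact ⟨whzero _, fun _ => rfl⟩
  | add p p' _ _ h1 h2 =>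
    rw [map_add]
    refine ⟨IsWeightedHomogeneous.add h1.1 h2.1, fun h => ?_⟩
    rw [h1.2 h, h2.2 h, add_zero]
  | monomial s c h =>
    have h1 : (pd (monomial s c) : Sy K) = monomial (s - Finsupp.single 0 1) (c * (s 0 : K)) :=
      pderiv_monomial
    rw [h1]
    by_cases h0 : s 0 = 0
    · rw [h0, Nat.cast_zero, mul_zero, monomial_zero]
      exact ⟨whzero _, fun _ => rfl⟩
    · have h2 : Finsupp.single 0 1 + (s - Finsupp.single 0 1) = s := by
        rw [add_comm]
        apply tsub_add_cancel_of_le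
        rw [Finsupp.single_le_iff]
        omega
      have h3 := weight_single_add 0 1 (s - Finsupp.single 0 1)
      rw [h2] at h3
      rw [h3] at h
      refine ⟨isWeightedHomogeneous_monomial _ _ _ (by omega), fun hn => by omega⟩

theorem st_DEG : ST_DEG K := by
  intro q t n F hF
  exact ⟨fun k hk => wh_Dk q t hF k hk, fun k hk => Dk_zero_of_neg q t hF k hk,
    fun b => wh_Bn q t b hF, (wh_pd hF).1, (wh_pd hF).2⟩

end

end Helper73.TH
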