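import Pool.Agent.Helper86.TH.Stmts

/-! Rows CT0 and TC of the project TH. -/

namespace Helper73.TH

open _root_.TH MvPolynomial Finset

noncomputable section

variable {K : Type*} [Field K] [CharZero K]

theorem ct_zero : ∀ (q t : K) (m : ℕ) (β : Fin m → ℤ), ∑ i, β i ≠ 0 → ct q t m β = 0 := by
  intro q t m
  induction m with
  | zero =>
    intro β h
    exact absurd (by simp) h
  | succ m ih =>
    intro β h
    rw [ct]
    split_ifs with h0
    · refine Finset.sum_eq_zero fun j hj => ?_
      rw [ih, mul_zero]
      rw [Finset.mem_piAntidiag] at hj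
      rw [Fin.sum_univ_succ] at h
      rw [Finset.sum_add_distrib]
      have h1 : ∑ i, ((j i : ℕ) : ℤ) = β 0 := by
        rw [← Nat.cast_sum, hj.1, Int.toNat_of_nonneg h0]
      rw [h1]
      omega
    · rfl

theorem st_CT0 : ST_CT0 K := ct_zero

theorem sum_piAntidiag_succ {M : Type*} [AddCommMonoid M] (m n : ℕ) (f : (Fin (m + 1) → ℕ) → M) :
    ∑ α ∈ Finset.piAntidiag (univ : Finset (Fin (m + 1))) n, f α =
      ∑ a ∈ range (n + 1), ∑ α ∈ Finset.piAntidiag (univ : Finset (Fin m)) (n - a),
        f (Fin.cons a α) := by
  rw [Finset.sum_sigma']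
  refine Finset.sum_nbij' (fun α => ⟨α 0, Fin.tail α⟩) (fun p => Fin.cons p.1 p.2) ?_ ?_ ?_ ?_ ?_
  · intro α hα
    rw [Finset.mem_piAntidiag, Fin.sum_univ_succ] at hα
    simp only [Finset.mem_sigma, Finset.mem_range, Finset.mem_piAntidiag, Finset.mem_univ,
      implies_true, and_true]
    have : ∑ i, Fin.tail α i = ∑ i : Fin m, α i.succ := rfl
    rw [this]
    omega
  · rintro ⟨a, α⟩ hp
    rw [Finset.mem_sigma, Finset.mem_range, Finset.mem_piAntidiag] at hp
    rw [Finset.mem_piAntidiag]
    refine ⟨?_, fun i _ => Finset.mem_univ i⟩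
    rw [Fin.sum_univ_succ]
    simp only [Fin.cons_zero, Fin.cons_succ]
    have h1 : a < n + 1 := hp.1
    have h2 : ∑ i, α i = n - a := hp.2.1
    omega
  · intro α _
    exact Fin.cons_self_tail α
  · intro p _
    simp
  · intro α _
    simp

theorem st_TC : ST_TC K := by
  intro q t m
  induction m with
  | zero =>
    intro β
    simp [tp, ct]
  | succ m ih =>
    intro β
    rw [tp]
    set T : ℤ := ∑ i : Fin m, β i.succ with hT
    -- the common summand
    set S : ℕ → K := fun y => ∑ j ∈ Finset.piAntidiag (univ : Finset (Fin m)) y,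
      ∑ α ∈ Finset.piAntidiag (univ : Finset (Fin m)) (T + y).toNat,
        (∏ i, om q t (j i)) * ct q t m (fun i => β i.succ + (j i : ℤ) - (α i : ℤ)) with hS
    have hsum : ∑ i, β i = β 0 + T := by rw [Fin.sum_univ_succ]
    have h1 : ∀ y ∈ range (β 0 + 1).toNat, ∑ j ∈ Finset.piAntidiag (univ : Finset (Fin m)) y,
        (∏ i, om q t (j i)) * tp q t m (fun i => β i.succ + (j i : ℤ)) =
        if 0 ≤ T + y then S y else 0 := by
      intro y _
      have h2 : ∀ j ∈ Finset.piAntidiag (univ : Finset (Fin m)) y,
          ∑ i, (β i.succ + (j i : ℤ)) = T + y := by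
        intro j hj
        rw [Finset.mem_piAntidiag] at hj
        rw [Finset.sum_add_distrib, ← Nat.cast_sum, hj.1]
      split_ifs with hy
      · rw [hS]
        refine Finset.sum_congr rfl fun j hj => ?_
        rw [ih, h2 j hj, if_pos hy, Finset.mul_sum]
      · refine Finset.sum_eq_zero fun j hj => ?_
        rw [ih, h2 j hj, if_neg hy, mul_zero]
    rw [Finset.sum_congr rfl h1, hsum]
    split_ifs with hb
    · rw [sum_piAntidiag_succ]
      have h3 : ∀ a ∈ range ((β 0 + T).toNat + 1),
          ∑ α ∈ Finset.piAntidiag (univ : Finset (Fin m)) ((β 0 + T).toNat - a),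
            ct q t (m + 1) (fun i => β i - ((Fin.cons a α : Fin (m + 1) → ℕ) i : ℤ)) =
          if (a : ℤ) ≤ β 0 then S (β 0 - a).toNat else 0 := by
        intro a ha
        rw [mem_range] at ha
        split_ifs with ha0
        · rw [hS]
          simp only
          have e1 : (T + ((β 0 - a).toNat : ℤ)).toNat = (β 0 + T).toNat - a := by omega
          rw [e1, Finset.sum_comm]
          refine Finset.sum_congr rfl fun α _ => ?_
          rw [ct]
          simp only [Fin.cons_zero, Fin.cons_succ]
          rw [if_pos (by omega)]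
          refine Finset.sum_congr rfl fun j _ => ?_
          congr 2
          funext i
          ring
        · refine Finset.sum_eq_zero fun α _ => ?_
          rw [ct]
          simp only [Fin.cons_zero]
          rw [if_neg (by omega)]
      rw [Finset.sum_congr rfl h3, ← Finset.sum_filter, ← Finset.sum_filter]
      refine Finset.sum_nbij' (fun y => (β 0 - y).toNat) (fun a => (β 0 - a).toNat) ?_ ?_ ?_ ?_ ?_
      · intro y hy
        rw [mem_filter, mem_range] at hy ⊢
        omega
      · intro y hy
        rw [mem_filter, mem_range] at hy ⊢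
        omega
      · intro y hy
        rw [mem_filter, mem_range] at hy
        omega
      · intro y hy
        rw [mem_filter, mem_range] at hy
        omega
      · intro y hy
        rw [mem_filter, mem_range] at hy
        congr 1
        omega
    · refine Finset.sum_eq_zero fun y hy => ?_
      rw [mem_range] at hy
      rw [if_neg (by omega)]

end

end Helper73.TH
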